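import Pool.Agent.Helper81.UR2.Goals2
import Pool.Agent.Helper92.RE.Sim
import Pool.Agent.Helper31.SusD.Grd

/-!
# Cell machines as machines with a memory of blocks: the computation (project UR2, MP_c578c8_lc)
-/

set_option autoImplicit false

namespace Pool.Agent.Helper81.UR2

open Pool.Agent.Helper65.LinSpace Pool.Agent.Helper78.Mpc Finset
open Pool.Agent.Helper65.OH (letW)
open Pool.Agent.Helper65.BR (BM)
open Pool.Agent.Helper81.RP (lett wd wf num_wd wd_num wf_eq hd tl hd_eq tl_eq wd_one wd_cons_true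
  wd_cons_false lt01_of)
open Pool.Agent.Helper92.RE (lett_none)
open Pool.Agent.Helper81.RR (l3 l3_letW div_letW)
open Pool.Agent.Helper53.UV (CM)

/-! ### Decoding -/

theorem big_pos (π φ n ω i W : ℕ) : 0 < big π φ n ω i W := by
  unfold big
  omega

section

variable (M : CM) {π : ℕ}

theorem sma_pos (hπ : okP π ≠ 0) (e k : ℕ) : 0 < sma π e k := by
  have h := ((okP_iff π).1 hπ).1
  unfold sma
  omega

variable (hπ : okP π ≠ 0) (φ n ω i W e k : ℕ)

include hπ

theorem cat_eq : catN (sdN (sma π e k)) (big π φ n ω i W) =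
    num (sd (wd (sma π e k)) ++ wd (big π φ n ω i W)) := by
  rw [← catN_num, ← sdN_num, num_wd (sma_pos hπ e k), num_wd (big_pos _ _ _ _ _ _)]

theorem stt_half : stt M π φ n ω i W e k / 2 =
    num (sd (wd (sma π e k)) ++ wd (big π φ n ω i W)) := by
  have h1 : ifz φ 0 (ifz (M.acc k) 0 1) ≤ 1 := by
    unfold ifz
    split_ifs <;> omega
  rw [← cat_eq hπ]
  unfold stt
  omega

theorem stt_pos : 0 < stt M π φ n ω i W e k := by
  have h1 := stt_half M hπ φ n ω i W e k
  have h2 := num_pos (sd (wd (sma π e k)) ++ wd (big π φ n ω i W))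
  omega

theorem uS_stt : uS (stt M π φ n ω i W e k) = sma π e k := by
  unfold uS
  rw [stt_half M hπ, hd_eq, num_wd (sma_pos hπ e k)]

theorem bS_stt : bS (stt M π φ n ω i W e k) = cdl [π, φ, n, ω, i, W] := by
  unfold bS
  rw [stt_half M hπ, tl_eq, num_wd (big_pos _ _ _ _ _ _)]
  unfold big
  rw [Nat.add_sub_cancel_left]

theorem πS_stt : πS (stt M π φ n ω i W e k) = π := by
  unfold πS
  rw [bS_stt M hπ, gt_zero]

theorem φS_stt : φS (stt M π φ n ω i W e k) = φ := by
  unfold φS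
  rw [bS_stt M hπ, gt_succ, gt_zero]

theorem nS_stt : nS (stt M π φ n ω i W e k) = n := by
  unfold nS
  rw [bS_stt M hπ, gt_succ, gt_succ, gt_zero]

theorem ωS_stt : ωS (stt M π φ n ω i W e k) = ω := by
  unfold ωS
  rw [bS_stt M hπ, gt_succ, gt_succ, gt_succ, gt_zero]

theorem iS_stt : iS (stt M π φ n ω i W e k) = i := by
  unfold iS
  rw [bS_stt M hπ, gt_succ, gt_succ, gt_succ, gt_succ, gt_zero]

theorem WS_stt : WS (stt M π φ n ω i W e k) = W := by
  unfold WS
  rw [bS_stt M hπ, gt_succ, gt_succ, gt_succ, gt_succ, gt_succ, gt_zero]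

theorem eS_stt : eS (stt M π φ n ω i W e k) = e := by
  unfold eS
  rw [uS_stt M hπ, πS_stt M hπ]
  unfold sma
  rw [Nat.add_sub_cancel_left, fs_pair]

theorem kS_stt : kS (stt M π φ n ω i W e k) = k := by
  unfold kS
  rw [uS_stt M hπ, πS_stt M hπ]
  unfold sma
  rw [Nat.add_sub_cancel_left, sn_pair]

theorem head_stt : (wd (stt M π φ n ω i W e k)).head? = some true ↔ φ ≠ 0 ∧ M.acc k ≠ 0 := by
  have hC : 0 < catN (sdN (sma π e k)) (big π φ n ω i W) := by
    rw [cat_eq hπ]
    exact num_pos _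
  unfold stt
  by_cases h1 : φ = 0
  · subst h1
    rw [ifz_zero, zero_add, wd_cons_false _ hC]
    simp
  · rw [ifz_ne h1]
    by_cases h2 : M.acc k = 0
    · rw [h2, ifz_zero, zero_add, wd_cons_false _ hC]
      simp
    · rw [ifz_ne h2, Nat.add_comm, wd_cons_true _ hC]
      simp [h1, h2]

theorem adF_stt : adF M (stt M π φ n ω i W e k) = ifz φ n (M.ad n (ω * pD π + i - po2 π)) := by
  unfold adF
  rw [φS_stt M hπ, nS_stt M hπ, ωS_stt M hπ, iS_stt M hπ, πS_stt M hπ]

theorem blkF_stt : blkF M (stt M π φ n ω i W e k) =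
    if φ ≠ 0 ∧ pD π ≤ i ∧ ω = ab M π k then 2 * (cb M π k + 1) + 1 else 1 := by
  unfold blkF
  rw [φS_stt M hπ, ωS_stt M hπ, iS_stt M hπ, πS_stt M hπ, kS_stt M hπ]
  by_cases h1 : φ = 0
  · rw [h1, ifz_zero, if_neg fun h => h.1 rfl]
  · rw [ifz_ne h1]
    by_cases h2 : i < pD π
    · rw [lt01_of h2, ifz_ne one_ne_zero, if_neg fun h => absurd h.2.1 (Nat.not_le.2 h2)]
    · rw [show lt01 i (pD π) = 0 from if_neg h2, ifz_zero]
      by_cases h3 : ω = ab M π k
      · rw [eq01_of h3, ifz_ne one_ne_zero, if_pos ⟨h1, Nat.le_of_not_lt h2, h3⟩]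
      · rw [show eq01 ω (ab M π k) = 0 from if_neg h3, ifz_zero, if_neg fun h => h3 h.2.2]

end

/-! ### One step of the machine -/

section

variable (M : CM)

theorem addr_wd {S : ℕ} (hS : 0 < S) : (mach M).addr (wd S) = (adF M S).bits := by
  have h : (mach M).addr (wd S) = wd (bitsN (adF M S)) := by
    refine wf_eq ?_ (by rw [bitsN_eq]; exact num_pos _)
    rw [num_wd hS]
    rfl
  rw [h, bitsN_eq, wd_num]

theorem blk_wd {S X : ℕ} (hS : 0 < S) (hX : 0 < X) (h : blkF M S = X) :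
    (mach M).blk (wd S) = wd X := by
  refine wf_eq ?_ hX
  rw [num_wd hS, h]

/-- **BLK.** -/
theorem gBLK : GoalBLK := by
  intro M π φ n ω i W e k hπ
  refine ⟨head_stt M hπ φ n ω i W e k, ?_, ?_⟩
  · rw [addr_wd M (stt_pos M hπ φ n ω i W e k), adF_stt M hπ]
    rfl
  · by_cases h : φ ≠ 0 ∧ pD π ≤ i ∧ ω = ab M π k
    · rw [if_pos h]
      refine blk_wd M (stt_pos M hπ φ n ω i W e k) (Nat.succ_pos _) ?_
      rw [blkF_stt M hπ, if_pos h]
    · rw [if_neg h, ← wd_one]
      refine blk_wd M (stt_pos M hπ φ n ω i W e k) Nat.one_pos ?_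
      rw [blkF_stt M hπ, if_neg h]

theorem get_line {S j : ℕ} (hS : 0 < S) (h : blkF M S = 2 * (j + 1) + 1) (π : ℕ) (m : ℕ → ℕ) :
    (mach M).get (wd S) (mw π m) = wd (cB π j m + 1) := by
  unfold BM.get
  rw [blk_wd M hS (Nat.succ_pos _) h, wd_cons_true _ (Nat.succ_pos _),
    if_pos (show (true :: wd (j + 1)).head? = some true from rfl),
    ← wd_cons_true _ (Nat.succ_pos _)]
  unfold mw
  rw [num_wd (Nat.succ_pos _), show (2 * (j + 1) + 1) / 2 - 1 = j by omega]

theorem step_mach {w y : List Bool} {S a S' π : ℕ} (hS : 0 < S) (ha : adF M S = a)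
    {m m' : ℕ → ℕ} (hS' : 0 < S')
    (h1 : ∀ v, v = num (letW w[a]? ++ (letW y[a]? ++ (mach M).get (wd S) (mw π m))) →
      nextG M S v = S')
    (h2 : ∀ X, wrG M S' X (cB π (X / 2 - 1) m + 1) = cB π (X / 2 - 1) m' + 1) :
    (mach M).step w y (wd S, mw π m) = (wd S', mw π m') := by
  have hnx : (mach M).nx w y (wd S) ((mach M).get (wd S) (mw π m)) = wd S' := by
    unfold BM.nx
    rw [addr_wd M hS, Pool.Agent.Helper31.TMS.bval_bits, ha]
    refine wf_eq ?_ hS'
    unfold nextF
    rw [hd_eq, tl_eq, num_wd hS]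
    exact h1 _ rfl
  unfold BM.step
  dsimp only
  rw [hnx]
  refine Prod.ext rfl ?_
  funext u
  show (mach M).write (sd (wd S') ++ (sd u ++ mw π m u)) = mw π m' u
  refine wf_eq ?_ (Nat.succ_pos _)
  unfold writeF
  rw [tl_eq, hd_eq, tl_eq, hd_eq, num_wd hS']
  unfold mw
  rw [num_wd (Nat.succ_pos _)]
  exact h2 _

variable {M} {π : ℕ}

/-- The computation of the length. -/
theorem step_len (hπ : okP π ≠ 0) (w y : List Bool) (n : ℕ) (m : ℕ → ℕ) :
    (mach M).step w y (wd (stt M π 0 n 0 0 0 0 0), mw π m) =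
      (wd (if n < w.length then stt M π 0 (n + 1) 0 0 0 0 0 else
        stt M π 1 n (ab M π (M.k0 n)) 0 0 0 (M.k0 n)), mw π m) := by
  refine step_mach M (a := n) (stt_pos M hπ _ _ _ _ _ _ _) ?_ ?_ ?_ ?_
  · rw [adF_stt M hπ, ifz_zero]
  · split_ifs <;> exact stt_pos M hπ _ _ _ _ _ _ _
  · intro v hv
    unfold nextG
    rw [πS_stt M hπ, φS_stt M hπ, nS_stt M hπ, ifz_ne hπ, ifz_zero, hv, l3_letW]
    by_cases hn : n < w.length
    · have h2 : lett w[n]? ≠ 0 := fun h => by
        rw [lett_none] at h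
        omega
      rw [ifz_ne h2, if_pos hn]
    · rw [lett_none.2 (by omega), ifz_zero, if_neg hn]
  · intro X
    unfold wrG
    have h : eS (if n < w.length then stt M π 0 (n + 1) 0 0 0 0 0 else
        stt M π 1 n (ab M π (M.k0 n)) 0 0 0 (M.k0 n)) = 0 := by
      split_ifs <;> exact eS_stt M hπ _ _ _ _ _ _ _
    rw [h, ifz_zero]

/-- The next letter of the window. -/
theorem step_load (hπ : okP π ≠ 0) (w y : List Bool) (t ω e : ℕ) {i : ℕ} (h1 : i < pD π) :
    (mach M).step w y (wd (stt M π 1 w.length ω i (win M w y π ω i) e (ka M w y t)),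
        mw π (me M w y t)) =
      (wd (stt M π 1 w.length ω (i + 1) (win M w y π ω (i + 1)) 0 (ka M w y t)),
        mw π (me M w y t)) := by
  refine step_mach M (a := M.ad w.length (ω * pD π + i - po2 π))
    (stt_pos M hπ _ _ _ _ _ _ _) ?_ (stt_pos M hπ _ _ _ _ _ _ _) ?_ ?_
  · rw [adF_stt M hπ, ifz_ne one_ne_zero]
  · intro v hv
    unfold nextG
    rw [πS_stt M hπ, φS_stt M hπ, nS_stt M hπ, ωS_stt M hπ, iS_stt M hπ, WS_stt M hπ,
      kS_stt M hπ, ifz_ne hπ, ifz_ne one_ne_zero, lt01_of h1, ifz_ne one_ne_zero, hv, l3_letW,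
      div_letW, l3_letW]
    show stt M π 1 w.length ω (i + 1) (upX π (win M w y π ω i) i
      (M.vl w y (ω * pD π + i - po2 π))) 0 _ = _
    rw [upX_win hπ]
  · intro X
    unfold wrG
    rw [eS_stt M hπ, ifz_zero]

/-- A new window. -/
theorem step_win (hπ : okP π ≠ 0) (w y : List Bool) (t e : ℕ) {ω i : ℕ} (h1 : ¬i < pD π)
    (h2 : ω ≠ ab M π (ka M w y t)) :
    (mach M).step w y (wd (stt M π 1 w.length ω i (win M w y π ω i) e (ka M w y t)),
        mw π (me M w y t)) =
      (wd (stt M π 1 w.length (ab M π (ka M w y t)) 0 (win M w y π (ab M π (ka M w y t)) 0) 0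
        (ka M w y t)), mw π (me M w y t)) := by
  refine step_mach M (a := M.ad w.length (ω * pD π + i - po2 π))
    (stt_pos M hπ _ _ _ _ _ _ _) ?_ (stt_pos M hπ _ _ _ _ _ _ _) ?_ ?_
  · rw [adF_stt M hπ, ifz_ne one_ne_zero]
  · intro v _
    unfold nextG
    rw [πS_stt M hπ, φS_stt M hπ, nS_stt M hπ, ωS_stt M hπ, iS_stt M hπ, WS_stt M hπ,
      kS_stt M hπ, ifz_ne hπ, ifz_ne one_ne_zero, show lt01 i (pD π) = 0 from if_neg h1, ifz_zero,
      show eq01 ω (ab M π (ka M w y t)) = 0 from if_neg h2, ifz_zero, win_zero]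
  · intro X
    unfold wrG
    rw [eS_stt M hπ, ifz_zero]

/-- A read. -/
theorem step_read (hπ : okP π ≠ 0) (w y : List Bool) (t e : ℕ)
    (hal : ∀ z, me M w y t z < pQ π) :
    (mach M).step w y (wd (stt M π 1 w.length (ab M π (ka M w y t)) (pD π)
        (win M w y π (ab M π (ka M w y t)) (pD π)) e (ka M w y t)), mw π (me M w y t)) =
      (wd (stt M π 1 w.length (ab M π (ka M w y t)) (pD π)
        (win M w y π (ab M π (ka M w y t)) (pD π)) (ka M w y t + 1)
          (ka M w y (En M w y π t))), mw π (me M w y (En M w y π t))) := by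
  obtain ⟨r1, -, -, r4, -⟩ := run_adv (w := w) (y := y) hπ hal (ab M π (ka M w y t))
    (cb M π (ka M w y t)) (pJ π)
  have hR : run M π (ab M π (ka M w y t)) (win M w y π (ab M π (ka M w y t)) (pD π))
      (ka M w y t) (cB π (cb M π (ka M w y t)) (me M w y t)) =
      Nat.pair (ka M w y (En M w y π t))
        (cB π (cb M π (ka M w y t)) (me M w y (En M w y π t))) := r1
  have hlt : lt01 (pD π) (pD π) = 0 := if_neg (lt_irrefl _)
  refine step_mach M (a := M.ad w.length (ab M π (ka M w y t) * pD π + pD π - po2 π))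
    (stt_pos M hπ _ _ _ _ _ _ _) ?_ (stt_pos M hπ _ _ _ _ _ _ _) ?_ ?_
  · rw [adF_stt M hπ, ifz_ne one_ne_zero]
  · intro v hv
    have hb : blkF M (stt M π 1 w.length (ab M π (ka M w y t)) (pD π)
        (win M w y π (ab M π (ka M w y t)) (pD π)) e (ka M w y t)) =
        2 * (cb M π (ka M w y t) + 1) + 1 := by
      rw [blkF_stt M hπ, if_pos ⟨one_ne_zero, le_rfl, rfl⟩]
    rw [get_line M (stt_pos M hπ _ _ _ _ _ _ _) hb] at hv
    have h5 : v / 16 - 1 = cB π (cb M π (ka M w y t)) (me M w y t) := by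
      rw [hv, show (16 : ℕ) = 4 * 4 by norm_num, ← Nat.div_div_eq_div_mul, div_letW, div_letW,
        num_wd (Nat.succ_pos _), Nat.succ_sub_one]
    unfold nextG
    rw [πS_stt M hπ, φS_stt M hπ, nS_stt M hπ, ωS_stt M hπ, iS_stt M hπ, WS_stt M hπ,
      kS_stt M hπ, ifz_ne hπ, ifz_ne one_ne_zero, hlt, ifz_zero,
      eq01_of (rfl : ab M π (ka M w y t) = ab M π (ka M w y t)), ifz_ne one_ne_zero, h5, hR,
      fs_pair]
  · intro X
    unfold wrG
    rw [eS_stt M hπ, ifz_ne (Nat.succ_ne_zero _), πS_stt M hπ, ωS_stt M hπ, WS_stt M hπ,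
      Nat.add_sub_cancel]
    by_cases hX : X / 2 - 1 = cb M π (ka M w y t)
    · rw [eq01_of hX, ifz_ne one_ne_zero, Nat.add_sub_cancel, hX, hR, sn_pair]
    · rw [show eq01 (X / 2 - 1) (cb M π (ka M w y t)) = 0 from if_neg hX, ifz_zero]
      have h := r4 _ hX
      rw [show adv M w y π (ab M π (ka M w y t)) (cb M π (ka M w y t)) t (pJ π) =
        En M w y π t from rfl] at h
      rw [h]

end

/-! ### The configurations -/

section

variable {M : CM} {p : List Bool}

theorem cB_zero (π j : ℕ) : cB π j (fun _ => 0) = 0 := by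
  unfold cB tab
  refine Finset.sum_eq_zero fun r _ => ?_
  have h : sh (po1 π) (fun _ => 0) (j * pD π + r) = 0 := by
    unfold sh
    split_ifs <;> rfl
  beta_reduce
  rw [h, zero_mul]

theorem conf_len (hπ : okP (num p) ≠ 0) (w y : List Bool) {n : ℕ} (hn : n ≤ w.length) :
    (mach M).conf w y p n = (wd (stt M (num p) 0 n 0 0 0 0 0), mw (num p) fun _ => 0) := by
  induction n with
  | zero =>
    refine Prod.ext ?_ ?_
    · show (mach M).start p = _
      refine wf_eq ?_ (stt_pos M hπ _ _ _ _ _ _ _)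
      unfold startF
      rw [ifz_ne hπ]
    · funext u
      show [] = wd (cB (num p) _ (fun _ => 0) + 1)
      rw [cB_zero, zero_add, wd_one]
  | succ n ih =>
    show (mach M).step w y ((mach M).conf w y p n) = _
    rw [ih (by omega), step_len hπ, if_pos (by omega)]

/-- The configurations of the machine, with the invariants. -/
theorem conf_qj (hπ : okP (num p) ≠ 0) (w y : List Bool) (j : ℕ) :
    (mach M).conf w y p (w.length + 1 + j) =
      (wd (stt M (num p) 1 w.length (qj M w y (num p) j).2.1 (qj M w y (num p) j).2.2.1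
        (win M w y (num p) (qj M w y (num p) j).2.1 (qj M w y (num p) j).2.2.1)
        (qj M w y (num p) j).2.2.2 (ka M w y (qj M w y (num p) j).1)),
        mw (num p) (me M w y (qj M w y (num p) j).1)) ∧
    (qj M w y (num p) j).2.2.1 ≤ pD (num p) ∧
    ∀ z, me M w y (qj M w y (num p) j).1 z < pQ (num p) := by
  induction j with
  | zero =>
    have hq : qj M w y (num p) 0 = (0, Vt M w y (num p) 0, 0, 0) := rfl
    rw [hq]
    dsimp only
    refine ⟨?_, Nat.zero_le _, fun z => pQ_pos hπ⟩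
    show (mach M).step w y ((mach M).conf w y p w.length) = _
    rw [conf_len hπ w y le_rfl, step_len hπ, if_neg (lt_irrefl _), win_zero]
    rfl
  | succ j ih =>
    obtain ⟨h1, h2, h3⟩ := ih
    have hq : qj M w y (num p) (j + 1) = sch (pD (num p)) (Vt M w y (num p))
        (En M w y (num p)) (ka M w y) (qj M w y (num p) j) :=
      Function.iterate_succ_apply' _ _ _
    have hc : (mach M).conf w y p (w.length + 1 + (j + 1)) =
        (mach M).step w y ((mach M).conf w y p (w.length + 1 + j)) := rfl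
    rw [hc, h1, hq]
    generalize qj M w y (num p) j = q at h1 h2 h3
    obtain ⟨t, ω, i, e⟩ := q
    dsimp only at h2 h3 ⊢
    unfold sch
    dsimp only
    by_cases c1 : i < pD (num p)
    · rw [if_pos c1]
      exact ⟨step_load hπ w y t ω e c1, c1, h3⟩
    · rw [if_neg c1]
      have hi : i = pD (num p) := by omega
      by_cases c2 : ω = ab M (num p) (ka M w y t)
      · rw [if_neg (show ¬ω ≠ Vt M w y (num p) t from fun h => h c2)]
        dsimp only
        obtain ⟨-, r2, -, -, -⟩ := run_adv (w := w) (y := y) hπ h3 (ab M (num p) (ka M w y t))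
          (cb M (num p) (ka M w y t)) (pJ (num p))
        rw [hi, c2]
        exact ⟨step_read hπ w y t e h3, le_rfl, r2⟩
      · rw [if_pos (show ω ≠ Vt M w y (num p) t from c2)]
        exact ⟨step_win hπ w y t e c1 c2, Nat.zero_le _, h3⟩

end

/-- **CNF.** -/
theorem gCNF : GoalCNF := fun _ w y _ hπ =>
  ⟨fun _ hn => conf_len hπ w y hn, fun j => (conf_qj hπ w y j).1⟩

/-! ### Soundness -/

theorem okP_zero : okP (πS 1) = 0 := by
  by_contra h
  have h1 := ((okP_iff _).1 h).1
  have h2 : bS 1 = 0 := by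
    have h3 : tl (1 / 2) ≤ 1 := by
      unfold tl
      exact Pool.Agent.Helper31.SusD.lst_le _ _
    unfold bS
    omega
  have h3 : πS 1 = 0 := by
    unfold πS
    rw [h2]
    rfl
  rw [h3] at h1
  exact absurd h1 (by decide)

theorem nx_dead (M : CM) (w y v : List Bool) : (mach M).nx w y (wd 1) v = wd 1 := by
  unfold BM.nx
  refine wf_eq ?_ Nat.one_pos
  unfold nextF nextG
  rw [hd_eq, num_wd Nat.one_pos, okP_zero, ifz_zero]

theorem conf_dead {M : CM} {p : List Bool} (h : okP (num p) = 0) (w y : List Bool) (t : ℕ) :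
    ((mach M).conf w y p t).1 = wd 1 := by
  induction t with
  | zero =>
    show (mach M).start p = _
    refine wf_eq ?_ Nat.one_pos
    unfold startF
    rw [h, ifz_zero]
  | succ t ih =>
    show (mach M).nx w y ((mach M).conf w y p t).1 _ = wd 1
    rw [ih]
    exact nx_dead M w y _

/-- **Soundness.** -/
theorem sound (M : CM) (w y : List Bool) (h : ∃ p r, (mach M).AcceptsAt w y p r) :
    ∃ t, M.AcceptsAt w y t := by
  obtain ⟨p, r, hr⟩ := h
  unfold BM.AcceptsAt at hr
  by_cases hπ : okP (num p) = 0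
  · rw [conf_dead hπ, wd_one] at hr
    exact absurd hr (by simp)
  · rcases Nat.lt_or_ge w.length r with h1 | h1
    · obtain ⟨j, rfl⟩ : ∃ j, r = w.length + 1 + j := ⟨r - (w.length + 1), by omega⟩
      rw [(conf_qj hπ w y j).1] at hr
      exact ⟨_, ((head_stt M hπ _ _ _ _ _ _ _).1 hr).2⟩
    · rw [conf_len hπ w y h1] at hr
      exact absurd rfl ((head_stt M hπ _ _ _ _ _ _ _).1 hr).1

end Pool.Agent.Helper81.UR2
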