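import Pool.Agent.Helper81.RR.Sim
import Pool.Agent.Helper53.UV.Cell

/-!
# Cell machines as machines with a memory of blocks: codes and tables (project UR2, MP_c578c8_lc)
-/

set_option autoImplicit false

namespace Pool.Agent.Helper81.UR2

open Pool.Agent.Helper65.LinSpace Pool.Agent.Helper78.Mpc Finset
open Pool.Agent.Helper53.UV (CM)

/-! ### Codes of lists -/

/-- The first component. -/
def fs (z : ℕ) : ℕ := (Nat.unpair z).1

/-- The second component. -/
def sn (z : ℕ) : ℕ := (Nat.unpair z).2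

theorem fs_pair (a b : ℕ) : fs (Nat.pair a b) = a := by
  unfold fs
  rw [Nat.unpair_pair]

theorem sn_pair (a b : ℕ) : sn (Nat.pair a b) = b := by
  unfold sn
  rw [Nat.unpair_pair]

/-- The rest of the code of a list. -/
def tn : ℕ → ℕ → ℕ
  | 0, z => z
  | j + 1, z => tn j (sn z)

/-- The entry number `j` of a list with the code `z`. -/
def gt (j z : ℕ) : ℕ := fs (tn j z)

/-- The code of a list. -/
def cdl : List ℕ → ℕ
  | [] => 0
  | a :: l => Nat.pair a (cdl l)

theorem gt_zero (a : ℕ) (l : List ℕ) : gt 0 (cdl (a :: l)) = a := fs_pair _ _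

theorem gt_succ (j a : ℕ) (l : List ℕ) : gt (j + 1) (cdl (a :: l)) = gt j (cdl l) := by
  show fs (tn j (sn (Nat.pair a (cdl l)))) = _
  rw [sn_pair]
  rfl

section

variable {α : Type} [Ctx α]

theorem ls_fs {z : α → ℕ} (h : LS z) : LS (fun a => fs (z a)) := LS.unpair1 h

theorem ls_sn {z : α → ℕ} (h : LS z) : LS (fun a => sn (z a)) := LS.unpair2 h

theorem ls_tn (j : ℕ) {z : α → ℕ} (h : LS z) : LS (fun a => tn j (z a)) := by
  induction j generalizing z with
  | zero => exact h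
  | succ j ih => exact ih (ls_sn h)

theorem ls_gt (j : ℕ) {z : α → ℕ} (h : LS z) : LS (fun a => gt j (z a)) := ls_fs (ls_tn j h)

theorem ls_pr {f g : α → ℕ} (hf : LS f) (hg : LS g) : LS (fun a => Nat.pair (f a) (g a)) :=
  Pool.Agent.Helper81.RP.ls_pair hf hg

theorem ls_f1 {f : α → ℕ} (h : LS f) : LS (fun z : α × ℕ => f z.1) := LS.comp (g := f) h LS.fst

end

/-! ### Parameters -/

/-- The number which is added to the code of the small part of the state. -/
def pbs (π : ℕ) : ℕ := gt 0 π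

/-- The bound of the states. -/
def pK (π : ℕ) : ℕ := gt 1 π

/-- The bound of the contents. -/
def pQ (π : ℕ) : ℕ := gt 2 π

/-- The length of the blocks. -/
def pD (π : ℕ) : ℕ := gt 3 π

/-- The offset of the cells. -/
def po1 (π : ℕ) : ℕ := gt 4 π

/-- The offset of the letters. -/
def po2 (π : ℕ) : ℕ := gt 5 π

/-- The number of the steps in one read. -/
def pJ (π : ℕ) : ℕ := gt 6 π

/-- A large number. -/
def pR (π : ℕ) : ℕ := gt 7 π

/-- The code of the parameters. -/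
def prm (bs K Q D o1 o2 J R : ℕ) : ℕ := cdl [bs, K, Q, D, o1, o2, J, R]

section

variable (bs K Q D o1 o2 J R : ℕ)

theorem pbs_prm : pbs (prm bs K Q D o1 o2 J R) = bs := by simp only [pbs, prm, gt_zero]

theorem pK_prm : pK (prm bs K Q D o1 o2 J R) = K := by simp only [pK, prm, gt_succ, gt_zero]

theorem pQ_prm : pQ (prm bs K Q D o1 o2 J R) = Q := by simp only [pQ, prm, gt_succ, gt_zero]

theorem pD_prm : pD (prm bs K Q D o1 o2 J R) = D := by simp only [pD, prm, gt_succ, gt_zero]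

theorem po1_prm : po1 (prm bs K Q D o1 o2 J R) = o1 := by simp only [po1, prm, gt_succ, gt_zero]

theorem po2_prm : po2 (prm bs K Q D o1 o2 J R) = o2 := by simp only [po2, prm, gt_succ, gt_zero]

theorem pJ_prm : pJ (prm bs K Q D o1 o2 J R) = J := by simp only [pJ, prm, gt_succ, gt_zero]

theorem pR_prm : pR (prm bs K Q D o1 o2 J R) = R := by simp only [pR, prm, gt_succ, gt_zero]

end

/-- Test of the parameters. -/
def okP (π : ℕ) : ℕ := lt01 0 (pbs π) * (lt01 0 (pQ π) * (lt01 0 (pD π) *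
  (le01 (capPow (pQ π) (pD π) (pR π)) (pR π) * le01 (capPow 16 (pD π) (pR π)) (pR π))))

theorem okP_iff (π : ℕ) : okP π ≠ 0 ↔
    0 < pbs π ∧ 0 < pQ π ∧ 0 < pD π ∧ pQ π ^ pD π ≤ pR π ∧ 16 ^ pD π ≤ pR π := by
  have h : ∀ q, capPow q (pD π) (pR π) ≤ pR π ↔ q ^ pD π ≤ pR π := by
    intro q
    unfold capPow
    rw [min_le_iff]
    omega
  unfold okP lt01 le01
  rw [← h (pQ π), ← h 16]
  split_ifs <;> simp_all

/-- The length of the blocks, or zero. -/
def pm (π : ℕ) : ℕ := ifz (okP π) 0 (pD π)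

theorem pm_eq {π : ℕ} (h : okP π ≠ 0) : pm π = pD π := ifz_ne h _ _

/-- A table of contents. -/
def tq (π : ℕ) (d : ℕ → ℕ) : ℕ := tab (pQ π) (pm π) fun i => d i % pQ π

/-- A table of letters. -/
def tx (π : ℕ) (d : ℕ → ℕ) : ℕ := tab 16 (pm π) fun i => d i % 16

theorem ok_of_m {π i : ℕ} (h : i < pm π) : okP π ≠ 0 := by
  intro h1
  unfold pm at h
  rw [h1, ifz_zero] at h
  exact Nat.not_lt_zero _ h

theorem pow_q (π : ℕ) : pQ π ^ pm π ≤ pR π + 1 := by
  by_cases h : okP π = 0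
  · unfold pm
    rw [h, ifz_zero, pow_zero]
    omega
  · rw [pm_eq h]
    exact ((okP_iff π).1 h).2.2.2.1.trans (Nat.le_succ _)

theorem pow_x (π : ℕ) : 16 ^ pm π ≤ pR π + 1 := by
  by_cases h : okP π = 0
  · unfold pm
    rw [h, ifz_zero, pow_zero]
    omega
  · rw [pm_eq h]
    exact ((okP_iff π).1 h).2.2.2.2.trans (Nat.le_succ _)

theorem tq_le (π : ℕ) (d : ℕ → ℕ) : tq π d ≤ pR π + 1 := by
  have h1 := pow_q π
  unfold tq
  rcases Nat.eq_zero_or_pos (pm π) with h | h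
  · rw [h]
    unfold tab
    simp
  · have h2 := (okP_iff π).1 (ok_of_m h)
    have h3 : tab (pQ π) (pm π) (fun i => d i % pQ π) < pQ π ^ pm π :=
      tab_lt fun i _ => Nat.mod_lt _ h2.2.1
    omega

section

variable {α : Type} [Ctx α]

theorem ls_pbs {z : α → ℕ} (h : LS z) : LS (fun a => pbs (z a)) := ls_gt 0 h
theorem ls_pK {z : α → ℕ} (h : LS z) : LS (fun a => pK (z a)) := ls_gt 1 h
theorem ls_pQ {z : α → ℕ} (h : LS z) : LS (fun a => pQ (z a)) := ls_gt 2 h
theorem ls_pD {z : α → ℕ} (h : LS z) : LS (fun a => pD (z a)) := ls_gt 3 h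
theorem ls_po1 {z : α → ℕ} (h : LS z) : LS (fun a => po1 (z a)) := ls_gt 4 h
theorem ls_po2 {z : α → ℕ} (h : LS z) : LS (fun a => po2 (z a)) := ls_gt 5 h
theorem ls_pJ {z : α → ℕ} (h : LS z) : LS (fun a => pJ (z a)) := ls_gt 6 h
theorem ls_pR {z : α → ℕ} (h : LS z) : LS (fun a => pR (z a)) := ls_gt 7 h

theorem ls_okP {z : α → ℕ} (h : LS z) : LS (fun a => okP (z a)) := by
  have h1 := ls_pQ h
  have h3 := ls_pD h
  have h4 := ls_pR h
  have h5 := LS.le01 (LS.capPow h1 h3 h4) h4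
  have h6 := LS.le01 (LS.capPow (LS.const (α := α) 16) h3 h4) h4
  exact LS.mul (LS.lt01 (LS.const 0) (ls_pbs h)) (LS.mul (LS.lt01 (LS.const 0) h1)
    (LS.mul (LS.lt01 (LS.const 0) h3) (LS.mul h5 h6)))

theorem ls_pm {z : α → ℕ} (h : LS z) : LS (fun a => pm (z a)) :=
  LS.ifz (ls_okP h) (LS.const 0) (ls_pD h)

theorem ls_tq {z : α → ℕ} {d : α → ℕ → ℕ} (h : LS z) (hd : LS (fun z : α × ℕ => d z.1 z.2)) :
    LS (fun a => tq (z a) (d a)) := by
  unfold tq
  exact LS.tab (d := fun a i => d a i % pQ (z a)) (q := fun a => pQ (z a))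
    (m := fun a => pm (z a)) (C := fun a => pR (z a) + 1)
    (LS.mod hd (ls_f1 (ls_pQ h))) (ls_pQ h) (ls_pm h) (LS.add (ls_pR h) (LS.const 1))
    (fun a i hi => Nat.mod_lt _ ((okP_iff _).1 (ok_of_m hi)).2.1) fun a => pow_q _

theorem ls_tx {z : α → ℕ} {d : α → ℕ → ℕ} (h : LS z) (hd : LS (fun z : α × ℕ => d z.1 z.2)) :
    LS (fun a => tx (z a) (d a)) := by
  unfold tx
  exact LS.tab (d := fun a i => d a i % 16) (q := fun _ => 16)
    (m := fun a => pm (z a)) (C := fun a => pR (z a) + 1)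
    (LS.mod hd (LS.const 16)) (LS.const 16) (ls_pm h) (LS.add (ls_pR h) (LS.const 1))
    (fun a i hi => Nat.mod_lt _ (by norm_num)) fun a => pow_x _

end

end Pool.Agent.Helper81.UR2
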