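import Pool.Agent.Helper81.UR2.Goals2
import Pool.Agent.Helper81.RP.Bnd

/-!
# Cell machines as machines with a memory of blocks: the sizes of the contents (project UR2)
-/

set_option autoImplicit false

namespace Pool.Agent.Helper81.UR2

open Pool.Agent.Helper65.LinSpace Pool.Agent.Helper78.Mpc Finset
open Pool.Agent.Helper81.RP (wd length_wd_le)
open Pool.Agent.Helper53.UV (CM)

theorem cB_lt {π : ℕ} (hπ : okP π ≠ 0) {m : ℕ → ℕ} (hm : ∀ z, m z < pQ π) (j : ℕ) :
    cB π j m < pQ π ^ pD π := tab_lt fun _ _ => sh_lt (pQ_pos hπ) hm _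

/-- The lengths of the contents. -/
theorem mw_length {π h : ℕ} (hπ : okP π ≠ 0) (hQ : pQ π = 2 ^ h) {m : ℕ → ℕ}
    (hm : ∀ z, m z < pQ π) (u : List Bool) : (mw π m u).length ≤ pD π * h := by
  have h1 := cB_lt hπ hm (num u / 2 - 1)
  rw [hQ, ← pow_mul, Nat.mul_comm] at h1
  unfold mw
  refine length_wd_le (Nat.succ_pos _) ?_
  rw [pow_succ]
  omega

/-- The length of the name of a block. -/
theorem name_length {c m : ℕ} (h : c < 2 ^ m) : (wd (2 * (c + 1) + 1)).length ≤ m + 2 := by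
  have h2 : 0 < 2 ^ m := Nat.two_pow_pos m
  refine length_wd_le (Nat.succ_pos _) ?_
  rw [show m + 2 + 1 = m + 3 from rfl, pow_add]
  omega

end Pool.Agent.Helper81.UR2
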