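import Pool.Agent.Helper81.UR2.Mach

/-!
# Cell machines as machines with a memory of blocks: two goals (project UR2, MP_c578c8_lc)
-/

set_option autoImplicit false

namespace Pool.Agent.Helper81.UR2

open Pool.Agent.Helper65.LinSpace Pool.Agent.Helper78.Mpc Finset
open Pool.Agent.Helper81.RP (wd)
open Pool.Agent.Helper53.UV (CM)

/-- One step of the machine, seen from outside: `(t, ω, i, e)` is the time of the cell machine, the number
of the window, the number of the loaded letters, and `0` or `1 +` the state before the last read. -/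
def sch (D : ℕ) (V E κ : ℕ → ℕ) (q : ℕ × ℕ × ℕ × ℕ) : ℕ × ℕ × ℕ × ℕ :=
  if q.2.2.1 < D then (q.1, q.2.1, q.2.2.1 + 1, 0) else
    if q.2.1 ≠ V q.1 then (q.1, V q.1, 0, 0) else (E q.1, q.2.1, q.2.2.1, κ q.1 + 1)

/-- The steps `j < R` in which a block is read. -/
def rds (D : ℕ) (V E κ : ℕ → ℕ) (R : ℕ) : Finset ℕ :=
  (range R).filter fun j => D ≤ ((sch D V E κ)^[j] (0, V 0, 0, 0)).2.2.1 ∧
    ((sch D V E κ)^[j] (0, V 0, 0, 0)).2.1 = V ((sch D V E κ)^[j] (0, V 0, 0, 0)).1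

/-- **SCH** (counting of the reads). `V t` and `B t` are the window and the block at the time `t`, and
`E t` is the time after the read which is made at the time `t`. PROOF. Strong induction on `T - t`: from
`(t, ω, i, e)` with `t < T` after `D - i` steps (`i < D`) all letters are loaded; if then `ω ≠ V t` there
is one step and `D` steps more; then a read leads to the time `E t`. If `E t = T` the claim holds with one
more read. Otherwise `E t - 1` is a time `≥ t` at which `B` or `V` changes (`B (E t - 1) = B t`,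
`V (E t - 1) = V t`). So the number of the reads from there on is at most the number of the changes in
`[t, T)` plus `1`. For `T = 0` take `R = 0`. -/
def GoalSCH : Prop := ∀ (D T : ℕ) (B V E κ : ℕ → ℕ),
  (∀ t < T, t < E t ∧ E t ≤ T ∧ (∀ t', t ≤ t' → t' < E t → B t' = B t ∧ V t' = V t) ∧
    (E t < T → B (E t) ≠ B t ∨ V (E t) ≠ V t)) →
  ∃ R, ((sch D V E κ)^[R] (0, V 0, 0, 0)).1 = T ∧
    (∀ j ≤ R, ((sch D V E κ)^[j] (0, V 0, 0, 0)).1 ≤ T ∧
      ((sch D V E κ)^[j] (0, V 0, 0, 0)).2.2.1 ≤ D ∧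
      (∃ t' ≤ T, ((sch D V E κ)^[j] (0, V 0, 0, 0)).2.1 = V t') ∧
      (((sch D V E κ)^[j] (0, V 0, 0, 0)).2.2.2 = 0 ∨
        ∃ t' ≤ T, ((sch D V E κ)^[j] (0, V 0, 0, 0)).2.2.2 = κ t' + 1)) ∧
    (rds D V E κ R).card ≤
      ((range T).filter fun t => B (t + 1) ≠ B t ∨ V (t + 1) ≠ V t).card + 1

/-- The parameters for the bounds `s, h, k`, blocks of length `D` and offsets `o, o'`. -/
def par (s h k D o o' : ℕ) : ℕ :=
  prm (2 ^ (2 * s + 2)) (2 ^ s) (2 ^ h) D o o' (2 ^ k) (2 ^ (D * (h + 4)))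

/-- **SIZ** (the sizes). `Nat.pair a b < 2 ^ (2 e)` for `a, b < 2 ^ e` (`Pool.Agent.Helper81.RP.pair_lt`);
`(wd S).length ≤ e` for `0 < S < 2 ^ (e + 1)` (`length_wd_le`); all numbers are smaller than `2 ^ E` with
`E = D (h + 4) + 2 s + k + 4`; the code of the parameters is smaller than `2 ^ (2 ^ 8 E)`, the large part
than `2 ^ (2 ^ 15 E)`. (4): `num (wd S) = S` for `S > 0`, `stt / 2 = num (sd (wd (sma ..)) ++ wd (big ..))`
(`sdN_num`, `catN_num`), `sma < 2 ^ (2 s + 3)` and `≥ 2 ^ (2 s + 2)`, so `|wd sma| = 2 s + 2` and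
`|sd (wd sma)| = 4 s + 5`; `num (u ++ v) + 2 ^ |u| = num u + 2 ^ |u| num v`,
`2 ^ |u| ≤ num u < 2 ^ (|u| + 1)`. -/
def GoalSIZ : Prop := ∃ K : ℕ, ∀ (M : CM) (s h k D o o' : ℕ), 0 < D → D < 2 ^ s → o < 2 ^ s →
  o' < 2 ^ s → okP (par s h k D o o') ≠ 0 ∧
    (wd (par s h k D o o')).length ≤ K * (D * (h + 1) + s + k) ∧
    ∀ φ n ω i W e κ, φ ≤ 1 → n < 2 ^ s → ω < 2 ^ s → i ≤ D → W < 16 ^ D → e ≤ 2 ^ s →
      κ < 2 ^ s →
      (wd (stt M (par s h k D o o') φ n ω i W e κ)).length ≤ K * (D * (h + 1) + s + k) ∧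
      num (wd (stt M (par s h k D o o') φ n ω i W e κ)) / 2 ^ (4 * s + 6) =
        big (par s h k D o o') φ n ω i W

end Pool.Agent.Helper81.UR2
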