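import Pool.Agent.Helper81.UR2.Sem
import Pool.Agent.Helper81.UR2.Goals
import Pool.Agent.Helper31.UV.CMBA

/-!
# Cell machines as machines with a memory of blocks: the last goals (project UR2, MP_c578c8_lc)
-/

set_option autoImplicit false

namespace Pool.Agent.Helper81.UR2

open Pool.Agent.Helper65.LinSpace Pool.Agent.Helper78.Mpc Finset
open Pool.Agent.Helper65.BR (BM)
open Pool.Agent.Helper81.RP (wd)
open Pool.Agent.Helper53.UV (CM)

/-- The contents of the blocks, if the cells have the contents `m`. -/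
noncomputable def mw (π : ℕ) (m : ℕ → ℕ) (u : List Bool) : List Bool :=
  wd (cB π (num u / 2 - 1) m + 1)

section

variable (M : CM) (w y : List Bool) (π : ℕ)

/-- The window at the time `t`. -/
def Vt (t : ℕ) : ℕ := ab M π (ka M w y t)

/-- The block at the time `t`. -/
def Bt (t : ℕ) : ℕ := cb M π (ka M w y t)

/-- The time of the cell machine, the window, the number of the loaded letters, and `0` or `1 +` the
state before the last read, `j` steps after the computation of the length. -/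
noncomputable def qj (j : ℕ) : ℕ × ℕ × ℕ × ℕ :=
  (sch (pD π) (Vt M w y π) (En M w y π) (ka M w y))^[j] (0, Vt M w y π 0, 0, 0)

end

/-- **CNF** (helper81): the configurations of the machine. -/
def GoalCNF : Prop := ∀ (M : CM) (w y p : List Bool), okP (num p) ≠ 0 →
  (∀ n ≤ w.length, (mach M).conf w y p n =
    (wd (stt M (num p) 0 n 0 0 0 0 0), mw (num p) fun _ => 0)) ∧
  ∀ j, (mach M).conf w y p (w.length + 1 + j) =
    (wd (stt M (num p) 1 w.length (qj M w y (num p) j).2.1 (qj M w y (num p) j).2.2.1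
      (win M w y (num p) (qj M w y (num p) j).2.1 (qj M w y (num p) j).2.2.1)
      (qj M w y (num p) j).2.2.2 (ka M w y (qj M w y (num p) j).1)),
      mw (num p) (me M w y (qj M w y (num p) j).1))

/-- **BLK** (helper81): the heads of the states, the addresses and the blocks. -/
def GoalBLK : Prop := ∀ (M : CM) (π φ n ω i W e k : ℕ), okP π ≠ 0 →
  ((wd (stt M π φ n ω i W e k)).head? = some true ↔ φ ≠ 0 ∧ M.acc k ≠ 0) ∧
  (mach M).addr (wd (stt M π φ n ω i W e k)) =
    (if φ = 0 then n else M.ad n (ω * pD π + i - po2 π)).bits ∧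
  (mach M).blk (wd (stt M π φ n ω i W e k)) =
    if φ ≠ 0 ∧ pD π ≤ i ∧ ω = ab M π k then wd (2 * (cb M π k + 1) + 1) else []

/-- **CMP** (completeness). PROOF. Let `T ≤ r` be the least `t` with `M.acc (ka M w y t) ≠ 0`,
`π = par s h k D o o'`, `p = wd π` (`num (wd π) = π`, `π > 0` since `okP 0 = 0`). By `Fits`, `D, o' < 2 ^ s`.
The hypotheses of SCH hold for `T`, `Bt`, `Vt`, `E = En M w y π`, `κ = ka M w y`: for `t < T` take `run_adv`
(with `hal` from `Fits`, `pQ π = 2 ^ h`) and `adv_or` for `ω = Vt t`, `β = Bt t`, `J = pJ π = 2 ^ k`. A time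
`u` with `t ≤ u < E t` has `go ≠ 0`, so `M.acc = 0`, `Bt u = β`, `Vt u = ω` (`go_ne`); so `E t ≤ T`. `Stay`
at `u < T` means `go = 0` (the other two cases contradict `Fits` at `u + 1 ≤ r`:
`pK π = 2 ^ s`, `wr = me (u + 1) (cel)`), that is `Bt u ≠ β` or `Vt u ≠ ω`; so not `E t = t`, and if
`E t < T` then `E t ≠ t + 2 ^ k > r`, so `Stay` at `E t`. SCH gives `R'`; take `R = |w| + 1 + R'`
and `g = 4 s + 6`. The state at `R` accepts by BLK. Bounds: CNF, BLK, SIZ with `n ≤ |w| < 2 ^ s`,
`ω = Vt t'` or `0`, `e = 0` or `ka t' + 1 ≤ 2 ^ s`, `W < 16 ^ D` (`win_lt`) and `Fits`; addresses: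
`ω D + i ≤ adr (ka t') + o' + D`; `(wd (2 (c + 1) + 1)).length ≤ m + K` for `c < 2 ^ m`;
contents: `cB π j m < (2 ^ h) ^ D` (`tab_lt`, `sh_lt`), `(wd (c + 1)).length ≤ D h + 1`. Reads are the
steps `|w| + 1 + j`, `j ∈ rds`, by BLK; the last bound of SCH and `T ≤ r` give the bound with
`M.chg`. In a read `φ, n, ω, i, W` and so `big` do not change (`sch`), by the last part of SIZ. -/
def GoalCMP : Prop := GoalCNF → GoalBLK → GoalSCH → GoalSIZ →
  ∀ M : CM, ∃ K : ℕ, Pool.Agent.Helper31.UV.CompK M (mach M) K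

end Pool.Agent.Helper81.UR2
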