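import Pool.Agent.Helper81.UR2.Goals2

/-!
# Cell machines as machines with a memory of blocks: the times of the reads (project UR2)
-/

set_option autoImplicit false

namespace Pool.Agent.Helper81.UR2

open Pool.Agent.Helper65.LinSpace Pool.Agent.Helper78.Mpc Finset
open Pool.Agent.Helper53.UV (CM)

variable {M : CM} {w y : List Bool} {π r : ℕ}

theorem eq01_self (a : ℕ) : eq01 a a = 1 := if_pos rfl

/-- The machine does not stay, if the bounds hold. -/
theorem not_stay {T : ℕ} (hT : T ≤ r) (hmin : ∀ t < T, M.acc (ka M w y t) = 0)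
    (hK : ∀ t ≤ r, ka M w y t < pK π) (hQ : ∀ t ≤ r, ∀ z, me M w y t z < pQ π) {t : ℕ}
    (ht : t < T) {ω β : ℕ} (h1 : cb M π (ka M w y t) = β) (h2 : ab M π (ka M w y t) = ω) :
    ¬Stay M w y π ω β t := by
  rintro (h | h | h)
  · unfold go at h
    rw [hmin t ht, ifz_zero, h1, h2, eq01_self, eq01_self, mul_one] at h
    exact absurd h one_ne_zero
  · exact h (hK (t + 1) (by omega))
  · apply h
    have h3 := hQ (t + 1) (by omega) (M.cel (ka M w y t))
    rw [me_succ, Function.update_self] at h3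
    exact h3

/-- **The hypotheses of SCH.** -/
theorem hyp (hπ : okP π ≠ 0) (hJ : r < pJ π) {T : ℕ} (hT : T ≤ r)
    (hacc : M.acc (ka M w y T) ≠ 0) (hmin : ∀ t < T, M.acc (ka M w y t) = 0)
    (hK : ∀ t ≤ r, ka M w y t < pK π) (hQ : ∀ t ≤ r, ∀ z, me M w y t z < pQ π) :
    ∀ t < T, t < En M w y π t ∧ En M w y π t ≤ T ∧
      (∀ t', t ≤ t' → t' < En M w y π t →
        Bt M w y π t' = Bt M w y π t ∧ Vt M w y π t' = Vt M w y π t) ∧
      (En M w y π t < T → Bt M w y π (En M w y π t) ≠ Bt M w y π t ∨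
        Vt M w y π (En M w y π t) ≠ Vt M w y π t) := by
  intro t ht
  obtain ⟨-, -, r3, -, r5⟩ := run_adv (w := w) (y := y) hπ (hQ t (by omega))
    (ab M π (ka M w y t)) (cb M π (ka M w y t)) (pJ π)
  have ho := adv_or (M := M) (w := w) (y := y) (π := π) (ab M π (ka M w y t))
    (cb M π (ka M w y t)) t (pJ π)
  rw [show adv M w y π (ab M π (ka M w y t)) (cb M π (ka M w y t)) t (pJ π) =
    En M w y π t from rfl] at r3 r5 ho
  have hle : En M w y π t ≤ T := by
    by_contra h
    have h1 := (go_ne M π (r5 T (by omega) (by omega))).1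
    exact hacc h1
  have hne : t ≠ En M w y π t := by
    intro h
    rw [← h] at ho
    rcases ho with ho | ho
    · omega
    · exact not_stay hT hmin hK hQ ht rfl rfl ho
  refine ⟨by omega, hle, fun t' h1 h2 => ?_, fun h => ?_⟩
  · obtain ⟨-, e1, e2⟩ := go_ne M π (r5 t' h1 h2)
    exact ⟨e1, e2⟩
  · by_contra hc
    rw [not_or, not_not, not_not] at hc
    rcases ho with ho | ho
    · omega
    · exact not_stay hT hmin hK hQ h hc.1 hc.2 ho

end Pool.Agent.Helper81.UR2
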