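import Pool.Agent.Helper81.UR2.Base

/-!
# Cell machines as machines with a memory of blocks: the machine (project UR2, MP_c578c8_lc)

The state codes the parameters `π`, the phase `φ` (`0`: the length `n` of the input word is computed), `n`,
the number `ω` of the window, the number `i` of the letters of the window which are already loaded, the
table `W` of these letters, a number `e` (`0`, or `1 +` the state before the last read) and the state `k` of
the cell machine. A read of a block makes `pJ π` steps of the cell machine, or less if it accepts or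
leaves the block or the window.
-/

set_option autoImplicit false

namespace Pool.Agent.Helper81.UR2

open Pool.Agent.Helper65.LinSpace Pool.Agent.Helper78.Mpc Finset
open Pool.Agent.Helper65.BR (BM)
open Pool.Agent.Helper81.RP (hd tl ls_hd ls_tl wf linComp_wf)
open Pool.Agent.Helper81.RR (l3 ls_l3)
open Pool.Agent.Helper53.UV (CM)

section

variable (M : CM)

/-- The block of the cell which is read. -/
def cb (π k : ℕ) : ℕ := (M.cel k + po1 π) / pD π

/-- The number of this cell in its block. -/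
def cp (π k : ℕ) : ℕ := (M.cel k + po1 π) % pD π

/-- The window of the letter which is read. -/
def ab (π k : ℕ) : ℕ := (M.adr k + po2 π) / pD π

/-- The number of this letter in its window. -/
def ap (π k : ℕ) : ℕ := (M.adr k + po2 π) % pD π

/-- A content is changed. -/
def upQ (π Z i v : ℕ) : ℕ := tq π fun j => ifz (eq01 j i) (dig (pQ π) Z j) v

/-- A letter is changed. -/
def upX (π W i v : ℕ) : ℕ := tx π fun j => ifz (eq01 j i) (dig 16 W j) v

/-- Not `0` if the machine does not accept and is in the block `β` and in the window `ω`. -/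
def go (π ω β k : ℕ) : ℕ := ifz (M.acc k) (eq01 (cb M π k) β * eq01 (ab M π k) ω) 0

/-- The new state. -/
def ink (π W k Z : ℕ) : ℕ := M.nx k (dig 16 W (ap M π k)) (dig (pQ π) Z (cp M π k))

/-- The new content of the cell. -/
def inv (π W k Z : ℕ) : ℕ := M.wr k (dig 16 W (ap M π k)) (dig (pQ π) Z (cp M π k))

/-- One step in the block `β`. -/
def inn (π ω W β r : ℕ) : ℕ :=
  ifz (go M π ω β (fs r) * (lt01 (ink M π W (fs r) (sn r)) (pK π) *
    lt01 (inv M π W (fs r) (sn r)) (pQ π))) r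
    (Nat.pair (ink M π W (fs r) (sn r)) (upQ π (sn r) (cp M π (fs r)) (inv M π W (fs r) (sn r))))

/-- The steps in one read. -/
def run (π ω W k Z : ℕ) : ℕ := nrec (Nat.pair k Z) (fun _ r => inn M π ω W (cb M π k) r) (pJ π)

/-- The large part of the state. -/
def big (π φ n ω i W : ℕ) : ℕ := 1 + cdl [π, φ, n, ω, i, W]

/-- The small part of the state. -/
def sma (π e k : ℕ) : ℕ := pbs π + Nat.pair e k

/-- The code of the state. -/
def stt (π φ n ω i W e k : ℕ) : ℕ :=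
  ifz φ 0 (ifz (M.acc k) 0 1) + 2 * catN (sdN (sma π e k)) (big π φ n ω i W)

end

/-- The small part. -/
def uS (S : ℕ) : ℕ := hd (S / 2)

/-- The large part. -/
def bS (S : ℕ) : ℕ := tl (S / 2) - 1

def πS (S : ℕ) : ℕ := gt 0 (bS S)
def φS (S : ℕ) : ℕ := gt 1 (bS S)
def nS (S : ℕ) : ℕ := gt 2 (bS S)
def ωS (S : ℕ) : ℕ := gt 3 (bS S)
def iS (S : ℕ) : ℕ := gt 4 (bS S)
def WS (S : ℕ) : ℕ := gt 5 (bS S)
def eS (S : ℕ) : ℕ := fs (uS S - pbs (πS S))
def kS (S : ℕ) : ℕ := sn (uS S - pbs (πS S))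

section

variable (M : CM)

/-- The new state. -/
def nextG (S v : ℕ) : ℕ :=
  ifz (okP (πS S)) 1 (ifz (φS S)
    (ifz (l3 (v % 4)) (stt M (πS S) 1 (nS S) (ab M (πS S) (M.k0 (nS S))) 0 0 0 (M.k0 (nS S)))
      (stt M (πS S) 0 (nS S + 1) 0 0 0 0 0))
    (ifz (lt01 (iS S) (pD (πS S)))
      (ifz (eq01 (ωS S) (ab M (πS S) (kS S)))
        (stt M (πS S) 1 (nS S) (ab M (πS S) (kS S)) 0 0 0 (kS S))
        (stt M (πS S) 1 (nS S) (ωS S) (iS S) (WS S) (kS S + 1)
          (fs (run M (πS S) (ωS S) (WS S) (kS S) (v / 16 - 1)))))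
      (stt M (πS S) 1 (nS S) (ωS S) (iS S + 1) (upX (πS S) (WS S) (iS S)
        (M.lf (nS S) (ωS S * pD (πS S) + iS S - po2 (πS S)) (l3 (v % 4)) (l3 (v / 4 % 4)))) 0
          (kS S))))

/-- The new state. -/
def nextF (x : ℕ) : ℕ := nextG M (hd x) (tl x)

/-- The address of the letters which are read. -/
def adF (S : ℕ) : ℕ := ifz (φS S) (nS S) (M.ad (nS S) (ωS S * pD (πS S) + iS S - po2 (πS S)))

/-- The code of the address. -/
def addrF (S : ℕ) : ℕ := bitsN (adF M S)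

/-- The name of the block which is read. -/
def blkF (S : ℕ) : ℕ :=
  ifz (φS S) 1 (ifz (lt01 (iS S) (pD (πS S)))
    (ifz (eq01 (ωS S) (ab M (πS S) (kS S))) 1 (2 * (cb M (πS S) (kS S) + 1) + 1)) 1)

/-- The new content of the block with the number `X` and the content `C`, if `S` is the new state. -/
def wrG (S X C : ℕ) : ℕ :=
  ifz (eS S) C (ifz (eq01 (X / 2 - 1) (cb M (πS S) (eS S - 1))) C
    (sn (run M (πS S) (ωS S) (WS S) (eS S - 1) (C - 1)) + 1))

/-- The new contents. -/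
def writeF (x : ℕ) : ℕ := wrG M (hd x) (hd (tl x)) (tl (tl x))

/-- The state at the start. -/
def startF (π : ℕ) : ℕ := ifz (okP π) 1 (stt M π 0 0 0 0 0 0 0)

end

/-! ### Linear space -/

section

variable {α : Type} [Ctx α] (M : CM)

theorem ls_celM {k : α → ℕ} (hk : LS k) : LS (fun a => M.cel (k a)) :=
  LS.comp (g := M.cel) M.ls_cel hk

theorem ls_adrM {k : α → ℕ} (hk : LS k) : LS (fun a => M.adr (k a)) :=
  LS.comp (g := M.adr) M.ls_adr hk

theorem ls_accM {k : α → ℕ} (hk : LS k) : LS (fun a => M.acc (k a)) :=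
  LS.comp (g := M.acc) M.ls_acc hk

theorem ls_k0M {k : α → ℕ} (hk : LS k) : LS (fun a => M.k0 (k a)) :=
  LS.comp (g := M.k0) M.ls_k0 hk

theorem ls_nxM {k x c : α → ℕ} (hk : LS k) (hx : LS x) (hc : LS c) :
    LS (fun a => M.nx (k a) (x a) (c a)) :=
  LS.comp (g := fun z : ℕ × ℕ × ℕ => M.nx z.1 z.2.1 z.2.2) (f := fun a => (k a, x a, c a)) M.ls_nx
    (by fun_prop)

theorem ls_wrM {k x c : α → ℕ} (hk : LS k) (hx : LS x) (hc : LS c) :
    LS (fun a => M.wr (k a) (x a) (c a)) :=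
  LS.comp (g := fun z : ℕ × ℕ × ℕ => M.wr z.1 z.2.1 z.2.2) (f := fun a => (k a, x a, c a)) M.ls_wr
    (by fun_prop)

theorem ls_adM {n u : α → ℕ} (hn : LS n) (hu : LS u) : LS (fun a => M.ad (n a) (u a)) :=
  LS.comp (g := fun z : ℕ × ℕ => M.ad z.1 z.2) (f := fun a => (n a, u a)) M.ls_ad (by fun_prop)

theorem ls_lfM {n u x y : α → ℕ} (hn : LS n) (hu : LS u) (hx : LS x) (hy : LS y) :
    LS (fun a => M.lf (n a) (u a) (x a) (y a)) :=
  LS.comp (g := fun z : ℕ × ℕ × ℕ × ℕ => M.lf z.1 z.2.1 z.2.2.1 z.2.2.2)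
    (f := fun a => (n a, u a, x a, y a)) M.ls_lf (by fun_prop)

theorem ls_cb {π k : α → ℕ} (hπ : LS π) (hk : LS k) : LS (fun a => cb M (π a) (k a)) :=
  LS.div (LS.add (ls_celM M hk) (ls_po1 hπ)) (ls_pD hπ)

theorem ls_cp {π k : α → ℕ} (hπ : LS π) (hk : LS k) : LS (fun a => cp M (π a) (k a)) :=
  LS.mod (LS.add (ls_celM M hk) (ls_po1 hπ)) (ls_pD hπ)

theorem ls_ab {π k : α → ℕ} (hπ : LS π) (hk : LS k) : LS (fun a => ab M (π a) (k a)) :=
  LS.div (LS.add (ls_adrM M hk) (ls_po2 hπ)) (ls_pD hπ)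

theorem ls_ap {π k : α → ℕ} (hπ : LS π) (hk : LS k) : LS (fun a => ap M (π a) (k a)) :=
  LS.mod (LS.add (ls_adrM M hk) (ls_po2 hπ)) (ls_pD hπ)

theorem ls_upQ {π Z i v : α → ℕ} (hπ : LS π) (hZ : LS Z) (hi : LS i) (hv : LS v) :
    LS (fun a => upQ (π a) (Z a) (i a) (v a)) :=
  ls_tq (d := fun a j => ifz (eq01 j (i a)) (dig (pQ (π a)) (Z a) j) (v a)) hπ
    (LS.ifz (LS.eq01 LS.snd (ls_f1 hi)) (LS.dig (ls_f1 (ls_pQ hπ)) (ls_f1 hZ) LS.snd) (ls_f1 hv))

theorem ls_upX {π Z i v : α → ℕ} (hπ : LS π) (hZ : LS Z) (hi : LS i) (hv : LS v) :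
    LS (fun a => upX (π a) (Z a) (i a) (v a)) :=
  ls_tx (d := fun a j => ifz (eq01 j (i a)) (dig 16 (Z a) j) (v a)) hπ
    (LS.ifz (LS.eq01 LS.snd (ls_f1 hi)) (LS.dig (LS.const 16) (ls_f1 hZ) LS.snd) (ls_f1 hv))

theorem ls_go {π ω β k : α → ℕ} (hπ : LS π) (hω : LS ω) (hβ : LS β) (hk : LS k) :
    LS (fun a => go M (π a) (ω a) (β a) (k a)) := by
  have h1 := LS.eq01 (ls_cb M hπ hk) hβ
  have h2 := LS.eq01 (ls_ab M hπ hk) hω
  exact LS.ifz (ls_accM M hk) (LS.mul h1 h2) (LS.const 0)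

theorem ls_ink {π W k Z : α → ℕ} (hπ : LS π) (hW : LS W) (hk : LS k) (hZ : LS Z) :
    LS (fun a => ink M (π a) (W a) (k a) (Z a)) := by
  have h1 := LS.dig (LS.const (α := α) 16) hW (ls_ap M hπ hk)
  have h2 := LS.dig (ls_pQ hπ) hZ (ls_cp M hπ hk)
  exact ls_nxM M hk h1 h2

theorem ls_inv {π W k Z : α → ℕ} (hπ : LS π) (hW : LS W) (hk : LS k) (hZ : LS Z) :
    LS (fun a => inv M (π a) (W a) (k a) (Z a)) := by
  have h1 := LS.dig (LS.const (α := α) 16) hW (ls_ap M hπ hk)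
  have h2 := LS.dig (ls_pQ hπ) hZ (ls_cp M hπ hk)
  exact ls_wrM M hk h1 h2

theorem ls_inn {π ω W β r : α → ℕ} (hπ : LS π) (hω : LS ω) (hW : LS W) (hβ : LS β) (hr : LS r) :
    LS (fun a => inn M (π a) (ω a) (W a) (β a) (r a)) := by
  have h1 := ls_fs hr
  have h2 := ls_sn hr
  have h3 := ls_go M hπ hω hβ h1
  have h4 := ls_ink M hπ hW h1 h2
  have h5 := ls_inv M hπ hW h1 h2
  have h6 := ls_upQ hπ h2 (ls_cp M hπ h1) h5
  have h7 := LS.mul h3 (LS.mul (LS.lt01 h4 (ls_pK hπ)) (LS.lt01 h5 (ls_pQ hπ)))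
  exact LS.ifz h7 hr (ls_pr h4 h6)

theorem pair_mono {a b c d : ℕ} (h1 : a ≤ c) (h2 : b ≤ d) : Nat.pair a b ≤ Nat.pair c d := by
  rcases h1.lt_or_eq with h | h
  · exact (Nat.pair_lt_pair_left b h).le.trans (by
      rcases h2.lt_or_eq with h' | h'
      · exact (Nat.pair_lt_pair_right c h').le
      · rw [h'])
  · rw [h]
    rcases h2.lt_or_eq with h' | h'
    · exact (Nat.pair_lt_pair_right c h').le
    · rw [h']

theorem pair_fs_sn (r : ℕ) : Nat.pair (fs r) (sn r) = r := Nat.pair_unpair r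

/-- The bounds of the steps in one read. -/
theorem run_bd (π ω W β k Z : ℕ) (i : ℕ) :
    nrec (Nat.pair k Z) (fun _ r => inn M π ω W β r) i ≤
      Nat.pair (k + pK π) (Z + (pR π + 1)) := by
  have key : fs (nrec (Nat.pair k Z) (fun _ r => inn M π ω W β r) i) ≤ k + pK π ∧
      sn (nrec (Nat.pair k Z) (fun _ r => inn M π ω W β r) i) ≤ Z + (pR π + 1) := by
    induction i with
    | zero =>
      rw [nrec_zero, fs_pair, sn_pair]
      exact ⟨Nat.le_add_right _ _, Nat.le_add_right _ _⟩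
    | succ i ih =>
      rw [nrec_succ]
      generalize nrec (Nat.pair k Z) (fun _ r => inn M π ω W β r) i = r at ih
      unfold inn
      by_cases h : go M π ω β (fs r) * (lt01 (ink M π W (fs r) (sn r)) (pK π) *
          lt01 (inv M π W (fs r) (sn r)) (pQ π)) = 0
      · rw [h, ifz_zero]
        exact ih
      · rw [ifz_ne h, fs_pair, sn_pair]
        have h1 : lt01 (ink M π W (fs r) (sn r)) (pK π) ≠ 0 := by
          intro h2
          rw [h2, zero_mul, mul_zero] at h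
          exact h rfl
        have h3 : ink M π W (fs r) (sn r) < pK π := by
          by_contra h4
          exact h1 (if_neg h4)
        refine ⟨h3.le.trans (Nat.le_add_left _ _), ?_⟩
        exact (tq_le π _).trans (Nat.le_add_left _ _)
  rw [← pair_fs_sn (nrec (Nat.pair k Z) (fun _ r => inn M π ω W β r) i)]
  exact pair_mono key.1 key.2

theorem ls_run {π ω W k Z : α → ℕ} (hπ : LS π) (hω : LS ω) (hW : LS W) (hk : LS k) (hZ : LS Z) :
    LS (fun a => run M (π a) (ω a) (W a) (k a) (Z a)) := by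
  unfold run
  refine LS.nrec (G := fun a => Nat.pair (k a) (Z a)) (N := fun a => pJ (π a))
    (C := fun a => Nat.pair (k a + pK (π a)) (Z a + (pR (π a) + 1)))
    (K := fun a _ r => inn M (π a) (ω a) (W a) (cb M (π a) (k a)) r)
    (ls_pr hk hZ) (ls_pJ hπ) (ls_pr (LS.add hk (ls_pK hπ)) (LS.add hZ (LS.add (ls_pR hπ)
      (LS.const 1)))) ?_ fun a i _ => run_bd M _ _ _ _ _ _ i
  have f1 : ∀ {f : α → ℕ}, LS f → LS (fun p : α × ℕ × ℕ => f p.1) := fun h =>
    LS.comp (g := _) h LS.fst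
  have hr : LS (fun p : α × ℕ × ℕ => p.2.2) := by fun_prop
  exact ls_inn M (f1 hπ) (f1 hω) (f1 hW) (ls_cb M (f1 hπ) (f1 hk)) hr

theorem ls_sma {π e k : α → ℕ} (hπ : LS π) (he : LS e) (hk : LS k) :
    LS (fun a => sma (π a) (e a) (k a)) := LS.add (ls_pbs hπ) (ls_pr he hk)

theorem ls_big {π φ n ω i W : α → ℕ} (hπ : LS π) (hφ : LS φ) (hn : LS n) (hω : LS ω) (hi : LS i)
    (hW : LS W) : LS (fun a => big (π a) (φ a) (n a) (ω a) (i a) (W a)) :=
  LS.add (LS.const 1) (ls_pr hπ (ls_pr hφ (ls_pr hn (ls_pr hω (ls_pr hi (ls_pr hW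
    (LS.const 0)))))))

theorem ls_stt {π φ n ω i W e k : α → ℕ} (hπ : LS π) (hφ : LS φ) (hn : LS n) (hω : LS ω)
    (hi : LS i) (hW : LS W) (he : LS e) (hk : LS k) :
    LS (fun a => stt M (π a) (φ a) (n a) (ω a) (i a) (W a) (e a) (k a)) := by
  have h1 := LS.sdN (ls_sma hπ he hk)
  have h2 := ls_big hπ hφ hn hω hi hW
  have h3 := Pool.Agent.Helper78.Mpc.LS.catN h1 h2
  exact LS.add (LS.ifz hφ (LS.const 0) (LS.ifz (ls_accM M hk) (LS.const 0) (LS.const 1)))
    (LS.mul (LS.const 2) h3)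

theorem ls_uS {S : α → ℕ} (hS : LS S) : LS (fun a => uS (S a)) :=
  LS.comp (g := hd) ls_hd (LS.div hS (LS.const 2))

theorem ls_bS {S : α → ℕ} (hS : LS S) : LS (fun a => bS (S a)) :=
  LS.sub (LS.comp (g := tl) ls_tl (LS.div hS (LS.const 2))) (LS.const 1)

theorem ls_πS {S : α → ℕ} (hS : LS S) : LS (fun a => πS (S a)) := ls_gt 0 (ls_bS hS)
theorem ls_φS {S : α → ℕ} (hS : LS S) : LS (fun a => φS (S a)) := ls_gt 1 (ls_bS hS)
theorem ls_nS {S : α → ℕ} (hS : LS S) : LS (fun a => nS (S a)) := ls_gt 2 (ls_bS hS)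
theorem ls_ωS {S : α → ℕ} (hS : LS S) : LS (fun a => ωS (S a)) := ls_gt 3 (ls_bS hS)
theorem ls_iS {S : α → ℕ} (hS : LS S) : LS (fun a => iS (S a)) := ls_gt 4 (ls_bS hS)
theorem ls_WS {S : α → ℕ} (hS : LS S) : LS (fun a => WS (S a)) := ls_gt 5 (ls_bS hS)

theorem ls_eS {S : α → ℕ} (hS : LS S) : LS (fun a => eS (S a)) :=
  ls_fs (LS.sub (ls_uS hS) (ls_pbs (ls_πS hS)))

theorem ls_kS {S : α → ℕ} (hS : LS S) : LS (fun a => kS (S a)) :=
  ls_sn (LS.sub (ls_uS hS) (ls_pbs (ls_πS hS)))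

/-- The number of the virtual letter which is loaded. -/
theorem ls_vadr {S : α → ℕ} (hS : LS S) :
    LS (fun a => ωS (S a) * pD (πS (S a)) + iS (S a) - po2 (πS (S a))) :=
  LS.sub (LS.add (LS.mul (ls_ωS hS) (ls_pD (ls_πS hS))) (ls_iS hS)) (ls_po2 (ls_πS hS))

theorem ls_nextG {S v : α → ℕ} (hS : LS S) (hv : LS v) :
    LS (fun a => nextG M (S a) (v a)) := by
  have hπ := ls_πS hS
  have hφ := ls_φS hS
  have hn := ls_nS hS
  have hω := ls_ωS hS
  have hi := ls_iS hS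
  have hW := ls_WS hS
  have hk := ls_kS hS
  have hab := ls_ab M hπ hk
  have h0 : LS (fun _ : α => 0) := LS.const 0
  have h1 : LS (fun _ : α => 1) := LS.const 1
  have hk0 := ls_k0M M hn
  have a1 := ls_stt M hπ h1 hn (ls_ab M hπ hk0) h0 h0 h0 hk0
  have a2 := ls_stt M hπ h0 (LS.add hn h1) h0 h0 h0 h0 h0
  have a3 := ls_stt M hπ h1 hn hab h0 h0 h0 hk
  have hr := ls_fs (ls_run M hπ hω hW hk (LS.sub (LS.div hv (LS.const 16)) (LS.const 1)))
  have a4 := ls_stt M hπ h1 hn hω hi hW (LS.add hk h1) hr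
  have hl := ls_lfM M hn (ls_vadr hS) (ls_l3 (LS.mod hv (LS.const 4)))
    (ls_l3 (LS.mod (LS.div hv (LS.const 4)) (LS.const 4)))
  have a5 := ls_stt M hπ h1 hn hω (LS.add hi h1) (ls_upX hπ hW hi hl) h0 hk
  have c1 := ls_l3 (LS.mod hv (LS.const 4))
  have c2 := LS.lt01 hi (ls_pD hπ)
  have c3 := LS.eq01 hω hab
  exact LS.ifz (ls_okP hπ) h1 (LS.ifz hφ (LS.ifz c1 a1 a2) (LS.ifz c2 (LS.ifz c3 a3 a4) a5))

theorem ls_blkF : LS (blkF M) := by
  have hS : LS (fun S : ℕ => S) := LS.id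
  have hπ := ls_πS hS
  have hk := ls_kS hS
  have h1 : LS (fun _ : ℕ => 1) := LS.const 1
  exact LS.ifz (ls_φS hS) h1 (LS.ifz (LS.lt01 (ls_iS hS) (ls_pD hπ))
    (LS.ifz (LS.eq01 (ls_ωS hS) (ls_ab M hπ hk)) h1
      (LS.add (LS.mul (LS.const 2) (LS.add (ls_cb M hπ hk) h1)) h1)) h1)

theorem ls_addrF : LS (addrF M) := by
  have hS : LS (fun S : ℕ => S) := LS.id
  exact LS.bitsN (LS.ifz (ls_φS hS) (ls_nS hS) (ls_adM M (ls_nS hS) (ls_vadr hS)))

theorem ls_wrG {S X C : α → ℕ} (hS : LS S) (hX : LS X) (hC : LS C) :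
    LS (fun a => wrG M (S a) (X a) (C a)) := by
  have hπ := ls_πS hS
  have he := ls_eS hS
  have he1 := LS.sub he (LS.const 1)
  have hr := ls_sn (ls_run M hπ (ls_ωS hS) (ls_WS hS) he1 (LS.sub hC (LS.const 1)))
  exact LS.ifz he hC (LS.ifz (LS.eq01 (LS.sub (LS.div hX (LS.const 2)) (LS.const 1))
    (ls_cb M hπ he1)) hC (LS.add hr (LS.const 1)))

theorem ls_nextF : LS (nextF M) := by
  have hh : LS (fun x : ℕ => hd x) := ls_hd
  have ht : LS (fun x : ℕ => tl x) := ls_tl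
  exact ls_nextG M hh ht

theorem ls_writeF : LS (writeF M) := by
  have hh : LS (fun x : ℕ => hd x) := ls_hd
  have ht : LS (fun x : ℕ => tl x) := ls_tl
  have h2 : LS (fun x : ℕ => tl (tl x)) := LS.comp (g := tl) ls_tl ht
  have h3 : LS (fun x : ℕ => hd (tl x)) := LS.comp (g := hd) ls_hd ht
  exact ls_wrG M hh h3 h2

theorem ls_startF : LS (startF M) := by
  have hi : LS (fun x : ℕ => x) := LS.id
  have h0 : LS (fun _ : ℕ => 0) := LS.const 0
  exact LS.ifz (ls_okP hi) (LS.const 1) (ls_stt M hi h0 h0 h0 h0 h0 h0 h0)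

/-- The machine with a memory of blocks. -/
noncomputable def mach : BM where
  start := wf (startF M)
  addr := wf (addrF M)
  blk := wf (blkF M)
  next := wf (nextF M)
  write := wf (writeF M)
  start_lin := linComp_wf (ls_startF M)
  addr_lin := linComp_wf (ls_addrF M)
  blk_lin := linComp_wf (ls_blkF M)
  next_lin := linComp_wf (ls_nextF M)
  write_lin := linComp_wf (ls_writeF M)

end

end Pool.Agent.Helper81.UR2
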