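import Pool.Agent.Helper81.UR2.Sim

/-!
# Cell machines as machines with a memory of blocks: the reads (project UR2)
-/

set_option autoImplicit false

namespace Pool.Agent.Helper81.UR2

open Pool.Agent.Helper65.LinSpace Pool.Agent.Helper78.Mpc Finset
open Pool.Agent.Helper65.BR (BM)
open Pool.Agent.Helper81.RP (wd wd_cons_true)
open Pool.Agent.Helper53.UV (CM)

variable {M : CM} {p : List Bool}

/-- The steps in which a block is read. -/
theorem read_iff (hπ : okP (num p) ≠ 0) (w y : List Bool) (t : ℕ) :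
    ((mach M).blk ((mach M).conf w y p t).1).head? = some true ↔
      ∃ j, t = w.length + 1 + j ∧ pD (num p) ≤ (qj M w y (num p) j).2.2.1 ∧
        (qj M w y (num p) j).2.1 = Vt M w y (num p) (qj M w y (num p) j).1 := by
  rcases Nat.lt_or_ge w.length t with h1 | h1
  · obtain ⟨j, rfl⟩ : ∃ j, t = w.length + 1 + j := ⟨t - (w.length + 1), by omega⟩
    rw [(conf_qj hπ w y j).1]
    dsimp only
    rw [(gBLK M _ _ _ _ _ _ _ _ hπ).2.2]
    constructor
    · intro h
      refine ⟨j, rfl, ?_⟩
      by_contra hc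
      rw [if_neg fun h' => hc h'.2] at h
      exact absurd h (by simp)
    · rintro ⟨j', hj, h2, h3⟩
      have hjj : j' = j := by omega
      subst hjj
      rw [if_pos ⟨one_ne_zero, h2, h3⟩, wd_cons_true _ (Nat.succ_pos _)]
      rfl
  · rw [conf_len hπ w y h1]
    dsimp only
    rw [(gBLK M _ _ _ _ _ _ _ _ hπ).2.2, if_neg fun h => h.1 rfl]
    constructor
    · intro h
      exact absurd h (by simp)
    · rintro ⟨j, hj, -⟩
      omega

/-- After a read. -/
theorem qj_read {w y : List Bool} {π j : ℕ} (h1 : pD π ≤ (qj M w y π j).2.2.1)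
    (h2 : (qj M w y π j).2.1 = Vt M w y π (qj M w y π j).1) :
    qj M w y π (j + 1) = (En M w y π (qj M w y π j).1, (qj M w y π j).2.1,
      (qj M w y π j).2.2.1, ka M w y (qj M w y π j).1 + 1) := by
  have hq : qj M w y π (j + 1) = sch (pD π) (Vt M w y π) (En M w y π) (ka M w y)
      (qj M w y π j) := Function.iterate_succ_apply' _ _ _
  rw [hq]
  unfold sch
  rw [if_neg (by omega), if_neg (fun h => h h2)]

/-- The number of the reads. -/
theorem reads_le (hπ : okP (num p) ≠ 0) (w y : List Bool) (R : ℕ) :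
    (mach M).reads w y p (w.length + 1 + R) ≤
      (rds (pD (num p)) (Vt M w y (num p)) (En M w y (num p)) (ka M w y) R).card := by
  classical
  unfold BM.reads
  have hsub : {t : ℕ | t < w.length + 1 + R ∧
      ((mach M).blk ((mach M).conf w y p t).1).head? = some true} ⊆
      (((rds (pD (num p)) (Vt M w y (num p)) (En M w y (num p)) (ka M w y) R).image
        fun j => w.length + 1 + j : Finset ℕ) : Set ℕ) := by
    rintro t ⟨h1, h2⟩
    obtain ⟨j, rfl, h3, h4⟩ := (read_iff hπ w y t).1 h2
    rw [Finset.coe_image]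
    refine ⟨j, ?_, rfl⟩
    show j ∈ rds _ _ _ _ R
    unfold rds
    rw [Finset.mem_filter, Finset.mem_range]
    exact ⟨by omega, h3, h4⟩
  refine (Set.ncard_le_ncard hsub (Finset.finite_toSet _)).trans ?_
  rw [Set.ncard_coe_finset]
  exact Finset.card_image_le

/-- The number of the changes. -/
theorem card_le_chg {w y : List Bool} {π T r : ℕ} (hT : T ≤ r) :
    ((range T).filter fun t => Bt M w y π (t + 1) ≠ Bt M w y π t ∨
      Vt M w y π (t + 1) ≠ Vt M w y π t).card ≤ M.chg w y (pD π) (po1 π) (po2 π) r := by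
  unfold CM.chg
  rw [← Set.ncard_coe_finset]
  refine Set.ncard_le_ncard ?_ ?_
  · intro t ht
    have h := (Finset.mem_filter.1 (Finset.mem_coe.1 ht))
    exact ⟨lt_of_lt_of_le (Finset.mem_range.1 h.1) hT, h.2⟩
  · exact (Set.finite_lt_nat r).subset fun t ht => ht.1

end Pool.Agent.Helper81.UR2
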