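import Pool.Agent.Helper81.UR2.Mach

/-!
# Cell machines as machines with a memory of blocks: the steps in one read (project UR2)
-/

set_option autoImplicit false

namespace Pool.Agent.Helper81.UR2

open Pool.Agent.Helper65.LinSpace Pool.Agent.Helper78.Mpc Finset
open Pool.Agent.Helper53.UV (CM)

/-! ### Tables -/

/-- The shifted memory. -/
def sh (o : ℕ) (m : ℕ → ℕ) (z : ℕ) : ℕ := if z < o then 0 else m (z - o)

theorem sh_add (o : ℕ) (m : ℕ → ℕ) (z : ℕ) : sh o m (z + o) = m z := by
  unfold sh
  rw [if_neg (by omega), Nat.add_sub_cancel]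

theorem sh_update (o : ℕ) (m : ℕ → ℕ) (c v : ℕ) :
    sh o (Function.update m c v) = Function.update (sh o m) (c + o) v := by
  funext z
  by_cases h : z = c + o
  · rw [h, Function.update_self, sh_add, Function.update_self]
  · rw [Function.update_of_ne h]
    unfold sh
    by_cases h2 : z < o
    · rw [if_pos h2, if_pos h2]
    · rw [if_neg h2, if_neg h2, Function.update_of_ne]
      omega

theorem sh_lt {o Q : ℕ} {m : ℕ → ℕ} (hQ : 0 < Q) (h : ∀ z, m z < Q) (z : ℕ) : sh o m z < Q := by
  unfold sh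
  split_ifs
  · exact hQ
  · exact h _

/-- The content of the block `j`, if the cells have the contents `m`. -/
def cB (π j : ℕ) (m : ℕ → ℕ) : ℕ := tab (pQ π) (pD π) fun r => sh (po1 π) m (j * pD π + r)

section

variable {M : CM} {π : ℕ} {m : ℕ → ℕ}

theorem pQ_pos (hπ : okP π ≠ 0) : 0 < pQ π := ((okP_iff π).1 hπ).2.1

theorem pD_pos (hπ : okP π ≠ 0) : 0 < pD π := ((okP_iff π).1 hπ).2.2.1

theorem dig_cB (hπ : okP π ≠ 0) (hm : ∀ z, m z < pQ π) (j : ℕ) {r : ℕ} (hr : r < pD π) :
    dig (pQ π) (cB π j m) r = sh (po1 π) m (j * pD π + r) :=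
  dig_tab (d := fun r => sh (po1 π) m (j * pD π + r)) (fun _ _ => sh_lt (pQ_pos hπ) hm _) hr

theorem cell_eq (k : ℕ) : cb M π k * pD π + cp M π k = M.cel k + po1 π := Nat.div_add_mod' _ _

/-- The content of the cell. -/
theorem ic_eq (hπ : okP π ≠ 0) (hm : ∀ z, m z < pQ π) (k : ℕ) :
    dig (pQ π) (cB π (cb M π k) m) (cp M π k) = m (M.cel k) := by
  have h : cp M π k < pD π := Nat.mod_lt _ (pD_pos hπ)
  rw [dig_cB hπ hm _ h, cell_eq, sh_add]

/-- The cell is changed. -/
theorem upQ_eq (hπ : okP π ≠ 0) (hm : ∀ z, m z < pQ π) (k : ℕ) {v : ℕ} (hv : v < pQ π) :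
    upQ π (cB π (cb M π k) m) (cp M π k) v =
      cB π (cb M π k) (Function.update m (M.cel k) v) := by
  unfold upQ tq
  rw [pm_eq hπ]
  unfold cB
  refine tab_congr fun r hr => ?_
  beta_reduce
  rw [sh_update]
  by_cases h : r = cp M π k
  · rw [show eq01 r (cp M π k) = 1 from if_pos h, ifz_ne one_ne_zero, Nat.mod_eq_of_lt hv, h,
      cell_eq, Function.update_self]
  · rw [show eq01 r (cp M π k) = 0 from if_neg h, ifz_zero]
    have h1 := dig_cB hπ hm (cb M π k) hr
    unfold cB at h1
    rw [h1, Nat.mod_eq_of_lt (sh_lt (pQ_pos hπ) hm _), Function.update_of_ne]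
    have h2 := cell_eq (M := M) (π := π) k
    omega

theorem cB_update (hπ : okP π ≠ 0) {k v j : ℕ} (hj : j ≠ cb M π k) :
    cB π j (Function.update m (M.cel k) v) = cB π j m := by
  have hD := pD_pos hπ
  unfold cB
  refine tab_congr fun r hr => ?_
  rw [sh_update, Function.update_of_ne]
  intro h
  apply hj
  unfold cb
  rw [← h, Nat.add_comm, Nat.add_mul_div_right _ _ hD, Nat.div_eq_of_lt hr, zero_add]

/-- The letters number `0, …, i - 1` of the window `ω`. -/
def win (M : CM) (w y : List Bool) (π ω i : ℕ) : ℕ :=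
  tab 16 (pD π) fun j => if j < i then M.vl w y (ω * pD π + j - po2 π) else 0

theorem vl_lt (w y : List Bool) (u : ℕ) : M.vl w y u < 16 := M.hlf _ _ _ _

theorem win_lt (w y : List Bool) (ω i : ℕ) : win M w y π ω i < 16 ^ pD π := by
  refine tab_lt fun j _ => ?_
  split_ifs
  · exact vl_lt w y _
  · norm_num

theorem win_zero (w y : List Bool) (ω : ℕ) : win M w y π ω 0 = 0 := by
  unfold win tab
  refine Finset.sum_eq_zero fun j _ => ?_
  beta_reduce
  rw [if_neg (Nat.not_lt_zero _), zero_mul]

theorem dig_win (w y : List Bool) (ω i : ℕ) {j : ℕ} (hj : j < pD π) :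
    dig 16 (win M w y π ω i) j = if j < i then M.vl w y (ω * pD π + j - po2 π) else 0 := by
  refine dig_tab (d := fun j => if j < i then M.vl w y (ω * pD π + j - po2 π) else 0)
    (fun j _ => ?_) hj
  split_ifs
  · exact vl_lt w y _
  · norm_num

/-- The next letter is loaded. -/
theorem upX_win (hπ : okP π ≠ 0) (w y : List Bool) (ω i : ℕ) :
    upX π (win M w y π ω i) i (M.vl w y (ω * pD π + i - po2 π)) = win M w y π ω (i + 1) := by
  unfold upX tx
  rw [pm_eq hπ]
  show _ = tab 16 (pD π) _
  refine tab_congr fun j hj => ?_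
  beta_reduce
  by_cases h : j = i
  · rw [show eq01 j i = 1 from if_pos h, ifz_ne one_ne_zero, Nat.mod_eq_of_lt (vl_lt w y _), h,
      if_pos (Nat.lt_succ_self i)]
  · rw [show eq01 j i = 0 from if_neg h, ifz_zero, dig_win w y ω i hj]
    by_cases h2 : j < i
    · rw [if_pos h2, if_pos (by omega), Nat.mod_eq_of_lt (vl_lt w y _)]
    · rw [if_neg h2, if_neg (by omega), Nat.zero_mod]

/-- The letter. -/
theorem ix_eq (hπ : okP π ≠ 0) (w y : List Bool) {ω k : ℕ} (h : ab M π k = ω) :
    dig 16 (win M w y π ω (pD π)) (ap M π k) = M.vl w y (M.adr k) := by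
  have h1 : ap M π k < pD π := Nat.mod_lt _ (pD_pos hπ)
  rw [dig_win w y ω _ h1, if_pos h1, ← h]
  have h2 : ab M π k * pD π + ap M π k = M.adr k + po2 π := Nat.div_add_mod' _ _
  rw [h2, Nat.add_sub_cancel]

end

/-! ### One read -/

section

variable (M : CM) (w y : List Bool) (π : ℕ)

/-- The state at the time `t`. -/
def ka (t : ℕ) : ℕ := (M.conf w y t).1

/-- The contents at the time `t`. -/
def me (t : ℕ) : ℕ → ℕ := (M.conf w y t).2

theorem ka_succ (t : ℕ) : ka M w y (t + 1) =
    M.nx (ka M w y t) (M.vl w y (M.adr (ka M w y t))) (me M w y t (M.cel (ka M w y t))) := rfl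

theorem me_succ (t : ℕ) : me M w y (t + 1) = Function.update (me M w y t) (M.cel (ka M w y t))
    (M.wr (ka M w y t) (M.vl w y (M.adr (ka M w y t))) (me M w y t (M.cel (ka M w y t)))) := rfl

/-- The read ends at the time `t`. -/
def Stay (ω β t : ℕ) : Prop := go M π ω β (ka M w y t) = 0 ∨ ¬ka M w y (t + 1) < pK π ∨
  ¬M.wr (ka M w y t) (M.vl w y (M.adr (ka M w y t))) (me M w y t (M.cel (ka M w y t))) < pQ π

open Classical in
/-- The time after at most `J` steps. -/
noncomputable def adv (ω β t : ℕ) : ℕ → ℕ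
  | 0 => t
  | J + 1 => if Stay M w y π ω β (adv ω β t J) then adv ω β t J else adv ω β t J + 1

theorem adv_zero (ω β t : ℕ) : adv M w y π ω β t 0 = t := rfl

theorem adv_stay {ω β t J : ℕ} (h : Stay M w y π ω β (adv M w y π ω β t J)) :
    adv M w y π ω β t (J + 1) = adv M w y π ω β t J := if_pos h

theorem adv_go {ω β t J : ℕ} (h : ¬Stay M w y π ω β (adv M w y π ω β t J)) :
    adv M w y π ω β t (J + 1) = adv M w y π ω β t J + 1 := if_neg h

theorem go_ne {ω β k : ℕ} (h : go M π ω β k ≠ 0) : M.acc k = 0 ∧ cb M π k = β ∧ ab M π k = ω := by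
  unfold go at h
  by_cases h1 : M.acc k = 0
  · rw [h1, ifz_zero] at h
    refine ⟨h1, ?_, ?_⟩
    · by_contra h2
      rw [show eq01 (cb M π k) β = 0 from if_neg h2, zero_mul] at h
      exact h rfl
    · by_contra h2
      rw [show eq01 (ab M π k) ω = 0 from if_neg h2, mul_zero] at h
      exact h rfl
  · rw [ifz_ne h1] at h
    exact absurd rfl h

variable {M w y π}

open Classical in
/-- One step in a read. -/
theorem inn_eq (hπ : okP π ≠ 0) {t : ℕ} (hal : ∀ z, me M w y t z < pQ π) (ω β : ℕ) :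
    inn M π ω (win M w y π ω (pD π)) β (Nat.pair (ka M w y t) (cB π β (me M w y t))) =
      if Stay M w y π ω β t then Nat.pair (ka M w y t) (cB π β (me M w y t)) else
        Nat.pair (ka M w y (t + 1)) (cB π β (me M w y (t + 1))) := by
  unfold inn
  rw [fs_pair, sn_pair]
  by_cases h0 : go M π ω β (ka M w y t) = 0
  · rw [h0, zero_mul, ifz_zero, if_pos (show Stay M w y π ω β t from Or.inl h0)]
  · obtain ⟨-, h2, h3⟩ := go_ne M π h0
    have e1 : ink M π (win M w y π ω (pD π)) (ka M w y t) (cB π β (me M w y t)) =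
        ka M w y (t + 1) := by
      unfold ink
      rw [ka_succ, ix_eq hπ w y h3, ← h2, ic_eq hπ hal]
    have e2 : inv M π (win M w y π ω (pD π)) (ka M w y t) (cB π β (me M w y t)) =
        M.wr (ka M w y t) (M.vl w y (M.adr (ka M w y t))) (me M w y t (M.cel (ka M w y t))) := by
      unfold inv
      rw [ix_eq hπ w y h3, ← h2, ic_eq hπ hal]
    rw [e1, e2]
    by_cases h4 : ka M w y (t + 1) < pK π
    · by_cases h5 : M.wr (ka M w y t) (M.vl w y (M.adr (ka M w y t)))
          (me M w y t (M.cel (ka M w y t))) < pQ π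
      · have h6 : ¬Stay M w y π ω β t := by
          rintro (h | h | h)
          · exact h0 h
          · exact h h4
          · exact h h5
        rw [if_neg h6, show lt01 (ka M w y (t + 1)) (pK π) = 1 from if_pos h4,
          show lt01 (M.wr (ka M w y t) (M.vl w y (M.adr (ka M w y t)))
            (me M w y t (M.cel (ka M w y t)))) (pQ π) = 1 from if_pos h5, mul_one, mul_one,
          ifz_ne h0, ← h2, upQ_eq hπ hal _ h5, ← me_succ]
      · rw [show lt01 (M.wr (ka M w y t) (M.vl w y (M.adr (ka M w y t)))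
            (me M w y t (M.cel (ka M w y t)))) (pQ π) = 0 from if_neg h5, mul_zero, mul_zero,
          ifz_zero, if_pos (show Stay M w y π ω β t from Or.inr (Or.inr h5))]
    · rw [show lt01 (ka M w y (t + 1)) (pK π) = 0 from if_neg h4, zero_mul, mul_zero, ifz_zero,
        if_pos (show Stay M w y π ω β t from Or.inr (Or.inl h4))]

theorem alive_succ {t : ℕ} (hal : ∀ z, me M w y t z < pQ π)
    (h : M.wr (ka M w y t) (M.vl w y (M.adr (ka M w y t))) (me M w y t (M.cel (ka M w y t))) <
      pQ π) (z : ℕ) : me M w y (t + 1) z < pQ π := by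
  rw [me_succ]
  by_cases hz : z = M.cel (ka M w y t)
  · rw [hz, Function.update_self]
    exact h
  · rw [Function.update_of_ne hz]
    exact hal z

open Classical in
/-- **The steps in one read.** -/
theorem run_adv (hπ : okP π ≠ 0) {t : ℕ} (hal : ∀ z, me M w y t z < pQ π) (ω β J : ℕ) :
    nrec (Nat.pair (ka M w y t) (cB π β (me M w y t)))
        (fun _ r => inn M π ω (win M w y π ω (pD π)) β r) J =
      Nat.pair (ka M w y (adv M w y π ω β t J)) (cB π β (me M w y (adv M w y π ω β t J))) ∧
    (∀ z, me M w y (adv M w y π ω β t J) z < pQ π) ∧ t ≤ adv M w y π ω β t J ∧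
    (∀ j, j ≠ β → cB π j (me M w y (adv M w y π ω β t J)) = cB π j (me M w y t)) ∧
    ∀ u, t ≤ u → u < adv M w y π ω β t J → go M π ω β (ka M w y u) ≠ 0 := by
  induction J with
  | zero =>
    rw [nrec_zero, adv_zero]
    exact ⟨rfl, hal, le_rfl, fun _ _ => rfl, fun u h1 h2 => absurd h2 (Nat.not_lt.2 h1)⟩
  | succ J ih =>
    obtain ⟨h1, h2, h3, h4, h5⟩ := ih
    rw [nrec_succ, h1, inn_eq hπ h2]
    by_cases h : Stay M w y π ω β (adv M w y π ω β t J)
    · rw [if_pos h, adv_stay M w y π h]
      exact ⟨rfl, h2, h3, h4, h5⟩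
    · rw [if_neg h, adv_go M w y π h]
      have h6 : go M π ω β (ka M w y (adv M w y π ω β t J)) ≠ 0 := fun h' => h (Or.inl h')
      have h7 : M.wr (ka M w y (adv M w y π ω β t J))
          (M.vl w y (M.adr (ka M w y (adv M w y π ω β t J))))
          (me M w y (adv M w y π ω β t J) (M.cel (ka M w y (adv M w y π ω β t J)))) < pQ π := by
        by_contra h'
        exact h (Or.inr (Or.inr h'))
      refine ⟨rfl, alive_succ h2 h7, by omega, fun j hj => ?_, fun u hu hu' => ?_⟩
      · rw [me_succ, cB_update hπ, h4 j hj]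
        rw [(go_ne M π h6).2.1]
        exact hj
      · rcases Nat.lt_or_ge u (adv M w y π ω β t J) with h8 | h8
        · exact h5 u hu h8
        · have : u = adv M w y π ω β t J := by omega
          rw [this]
          exact h6

theorem adv_or (ω β t J : ℕ) : adv M w y π ω β t J = t + J ∨
    Stay M w y π ω β (adv M w y π ω β t J) := by
  induction J with
  | zero => exact Or.inl rfl
  | succ J ih =>
    by_cases h : Stay M w y π ω β (adv M w y π ω β t J)
    · rw [adv_stay M w y π h]
      exact Or.inr h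
    · rw [adv_go M w y π h]
      rcases ih with ih | ih
      · left
        omega
      · exact absurd ih h

/-- The time after the read which is made at the time `t`. -/
noncomputable def En (M : CM) (w y : List Bool) (π t : ℕ) : ℕ :=
  adv M w y π (ab M π (ka M w y t)) (cb M π (ka M w y t)) t (pJ π)

end

end Pool.Agent.Helper81.UR2
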